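import Pool.Agent.helper94.PL.Spec

set_option autoImplicit false

open Complex Metric Set Filter Topology MeasureTheory MPS
open Pool.Agent.helper16.Multibrot

noncomputable section

namespace PLY

theorem RAE (hRFE : RFE_stmt) : RAE_stmt := by
  intro n m c E θ hn hc hE hm hF
  obtain ⟨hd, hf, _⟩ := hRFE n c E hn hc hE
  have hmem : ∀ t : ℝ, 0 < t → (t : ℂ) ∈ RH := by
    intro t ht
    show 0 < (t : ℂ).re
    simpa using ht
  refine ⟨?_, ⟨m, hm, hF, ?_⟩, ?_⟩
  · have h1 : ContinuousOn (ry E θ) RH := (hd θ).continuousOn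
    exact h1.comp Complex.continuous_ofReal.continuousOn (fun t ht => hmem t ht)
  · intro t ht
    have h := hf θ m hF (t : ℂ) (hmem t ht)
    show (fc n c)^[m] (ry E θ (t : ℂ)) = ry E θ (((n : ℝ) ^ m * t : ℝ) : ℂ)
    rw [h]
    push_cast
    rfl
  · have hlim : Tendsto (fun t : ℝ => Complex.exp (-((t : ℂ) + 2 * Real.pi * θ * I)))
        atTop (𝓝 0) := by
      rw [tendsto_zero_iff_norm_tendsto_zero]
      have h2 : (fun t : ℝ => ‖Complex.exp (-((t : ℂ) + 2 * Real.pi * θ * I))‖)
          = fun t : ℝ => Real.exp (-t) := by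
        funext t
        rw [Complex.norm_exp]
        congr 1
        simp
      rw [h2]
      exact Real.tendsto_exp_neg_atTop_nhds_zero
    have hcont : ContinuousAt E 0 :=
      (hE.hol.differentiableAt (ball_mem_nhds _ one_pos)).continuousAt
    have h3 : Tendsto (fun t : ℝ => E (Complex.exp (-((t : ℂ) + 2 * Real.pi * θ * I))))
        atTop (𝓝 1) := by
      have := hcont.tendsto.comp hlim
      rw [hE.one] at this
      exact this
    refine h3.congr fun t => ?_
    show E (Complex.exp (-((t : ℂ) + 2 * Real.pi * θ * I)))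
      = ry E θ (t : ℂ) * Complex.exp (-((t : ℂ) + 2 * Real.pi * θ * I))
    unfold ry chi
    rw [Complex.exp_neg]
    field_simp

end PLY
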